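import Pool.Agent.H440.MC.PackC

/-!
The average over all levels `q`, `X < q ≤ Y`, prime to a multiple `M` of the level, and all characters
mod `q`, for a family of twists (helper440; the proof is that of `W165.CE.avg_mainM`, owner helper165).
-/

set_option autoImplicit false
set_option maxHeartbeats 4000000

open Finset DirichletCharacter
open H370 (zset mult NN Nd Ns)
open Pool.Agent.H82R3.EK (exp_big PP SS window fam_nonneg fam_le fam_ge sub_window)

namespace Pool.Agent.H440.MC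

/-- lower bound for the number of zeros -/
lemma lower (d A : ℝ) (hd : 1 ≤ d) (hA : 1 ≤ A) : ∃ ℓ0 : ℝ, 1 ≤ ℓ0 ∧ ∀ (X : ℝ) (q : ℕ) (F : ℂ → ℂ) (a : ℕ → ℂ) (T : ℝ),
    1 ≤ X → ℓ0 ≤ Real.log X → X ≤ q → (q : ℝ) ≤ X ^ 2 → Real.log X ^ 2 ≤ T → T ≤ X →
    W388.GoodE d A (q : ℝ) F a → T * Real.log X / 10 ≤ (NN F T (2 * T) : ℝ) := by
  obtain ⟨C, hC, h⟩ := W388.N_lower_D d A hd hA
  obtain ⟨ℓ1, hℓ1, hexp⟩ := exp_big 16
  refine ⟨max (max ℓ1 9) (40 * (6 * C)), le_trans hℓ1 (le_trans (le_max_left _ _) (le_max_left _ _)), ?_⟩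
  intro X q F a T hX1 hℓ hXq hqX hT1 hT2 hF
  set ℓ := Real.log X with hℓdef
  have b1 : ℓ1 ≤ ℓ := le_trans (le_trans (le_max_left _ _) (le_max_left _ _)) hℓ
  have b2 : 9 ≤ ℓ := le_trans (le_trans (le_max_right _ _) (le_max_left _ _)) hℓ
  have b4 : 40 * (6 * C) ≤ ℓ := le_trans (le_max_right _ _) hℓ
  have hX0 : 0 < X := by linarith
  have hq0 : (0 : ℝ) < q := by linarith
  have hT3 : 81 ≤ T := by nlinarith only [hT1, b2]
  have hT0 : 0 < T := by linarith
  set Q : ℝ := (q : ℝ) with hQ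
  have hQ1 : 1 ≤ Q := by linarith
  have hlog : Real.log (Q * T) = Real.log q + Real.log T := by
    rw [Real.log_mul (by positivity) (by positivity)]
  have hlq1 : ℓ ≤ Real.log q := Real.log_le_log hX0 hXq
  have hlq2 : Real.log q ≤ 2 * ℓ := by
    have := Real.log_le_log hq0 hqX
    rwa [Real.log_pow] at this
  have hlT : 0 ≤ Real.log T := Real.log_nonneg (by linarith)
  have hlT2 : Real.log T ≤ ℓ := Real.log_le_log hT0 hT2
  have g1 : ℓ ≤ Real.log (Q * T) := by rw [hlog]; linarith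
  have g2 : Real.log (Q * T) ≤ 4 * ℓ := by rw [hlog]; linarith
  obtain ⟨r, hr0, hr⟩ : ∃ r : ℝ, 0 ≤ r ∧ r ^ 2 = ℓ := ⟨Real.sqrt ℓ, Real.sqrt_nonneg _, Real.sq_sqrt (by linarith)⟩
  have hs3 : 3 ≤ r := by
    by_contra hcon
    push Not at hcon
    have : r ^ 2 < 9 := by nlinarith only [hr0, hcon]
    linarith
  have hrℓ : r ≤ ℓ := by rw [← hr]; nlinarith only [hs3]
  have hℓT : 9 * ℓ ≤ T := by nlinarith only [b2, hT1]
  have hs8 : 8 * r ≤ T := by linarith
  have key := h Q F a hQ1 hF T r hs3 hs8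
  refine le_trans ?_ key
  have e1 : Real.exp (-r ^ 2 / 2) = (Real.exp (ℓ / 2))⁻¹ := by
    rw [hr, ← Real.exp_neg]; congr 1; ring
  have hE := hexp ℓ b1
  have hEpos : 0 < Real.exp (ℓ / 2) := Real.exp_pos _
  have hg0 : 0 ≤ Real.log (Q * T) := by linarith
  have hL2 : Real.log (Q * T) ^ 2 ≤ 16 * ℓ ^ 2 := by
    have := pow_le_pow_left₀ hg0 g2 2
    linarith
  have t3 : T * Real.log (Q * T) ^ 2 * Real.exp (-r ^ 2 / 2) ≤ T := by
    rw [e1, ← div_eq_mul_inv, div_le_iff₀ hEpos]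
    exact mul_le_mul_of_nonneg_left (hL2.trans hE) hT0.le
  have t2 : r * Real.log (Q * T) ≤ 4 * T := by
    have h2 : r * Real.log (Q * T) ≤ ℓ * (4 * ℓ) :=
      mul_le_mul hrℓ g2 hg0 (by linarith)
    linarith
  have t1 : T * ℓ / 8 ≤ T / (2 * Real.pi) * (d * Real.log (Q * T)) := by
    have hpi := Real.pi_pos
    have hpi4 : Real.pi ≤ 4 := Real.pi_le_four
    have : T / (2 * Real.pi) * (d * Real.log (Q * T)) = T * (d * Real.log (Q * T)) / (2 * Real.pi) := by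
      field_simp
    rw [this, div_le_div_iff₀ (by norm_num) (by positivity)]
    have g3 : ℓ ≤ d * Real.log (Q * T) := by nlinarith
    have h1 : T * ℓ ≤ T * (d * Real.log (Q * T)) := mul_le_mul_of_nonneg_left g3 hT0.le
    have h2 : 0 ≤ T * ℓ := mul_nonneg hT0.le (by linarith)
    calc T * ℓ * (2 * Real.pi) ≤ T * ℓ * 8 := mul_le_mul_of_nonneg_left (by linarith) h2
      _ ≤ T * (d * Real.log (Q * T)) * 8 := mul_le_mul_of_nonneg_right h1 (by norm_num)
  have t4 : C * (T + r * Real.log (Q * T) + T * Real.log (Q * T) ^ 2 * Real.exp (-r ^ 2 / 2)) ≤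
      C * (6 * T) := mul_le_mul_of_nonneg_left (by linarith) hC.le
  have t5 : T * (40 * (6 * C)) ≤ T * ℓ := mul_le_mul_of_nonneg_left b4 hT0.le
  linarith

/-- the average over all characters of level `q` -/
theorem avg {d : ℝ} {r N : ℕ} {t u : ℕ → ℂ} {A : ℝ} {L : (q : ℕ) → DirichletCharacter ℂ q → ℂ → ℂ}
    (hPk : Pack d r N t u A L) {M : ℕ} (hM0 : M ≠ 0) (hNM : N ∣ M) :
    ∃ K η X0 : ℝ, 1 ≤ K ∧ 0 < η ∧ 1 ≤ X0 ∧
        ∀ (X Y : ℕ) (T : ℝ), X0 ≤ X → K * X ≤ Y → (Y : ℝ) ≤ (X : ℝ) ^ (1 + η) →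
        (Real.log X) ^ 2 ≤ T → T ≤ (X : ℝ) ^ η →
        T * Real.log X / 10 ≤ ∑ q ∈ (Finset.Ioc X Y).filter (fun q => Nat.Coprime q M),
            (1 / (q : ℝ) ^ 2) * SS (fun q χ => (NN (L q χ) T (2 * T) : ℝ)) q ∧
        0.6725 * ∑ q ∈ (Finset.Ioc X Y).filter (fun q => Nat.Coprime q M),
            (1 / (q : ℝ) ^ 2) * SS (fun q χ => (NN (L q χ) T (2 * T) : ℝ)) q ≤
          ∑ q ∈ (Finset.Ioc X Y).filter (fun q => Nat.Coprime q M),
            (1 / (q : ℝ) ^ 2) * SS (fun q χ => (Ns (L q χ) T (2 * T) : ℝ)) q := by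
  classical
  have hA := hPk.hA
  have hd := hPk.hd
  obtain ⟨δ, K0, η0, X00, hδ, hK0, hη0, hX00, hW⟩ := hPk.window M hM0 hNM
  have hMsq : Squarefree (W388.rad M) := W388.rad_squarefree M
  obtain ⟨CU, hCU, hU⟩ := W388.zcount_long_D d A hd hA
  obtain ⟨ℓ1, hℓ1, hLow⟩ := lower d A hd hA
  obtain ⟨Cm, hCm, hmass⟩ := H385.prim_mass_M (W388.rad M) hMsq
  have hcM := H385.cM_pos (W388.rad M) hMsq
  set η1 : ℝ := min η0 1 with hη1
  have hη1pos : 0 < η1 := lt_min hη0 one_pos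
  have hη1le : η1 ≤ 1 := min_le_right _ _
  obtain ⟨X1, hX1, hsub⟩ := sub_window K0 η1 X00 hK0 hη1pos hη1le
  obtain ⟨ℓ2, hℓ2, hexp⟩ := exp_big (24 * CU / δ)
  set K1 : ℝ := max (2 * K0) (Real.exp ((Cm + 1) / H385.cM (W388.rad M))) with hK1
  refine ⟨K1, η1 / 3, max X1 (Real.exp (max (max ℓ1 ℓ2) 10)), ?_, by positivity, le_trans hX1 (le_max_left _ _), ?_⟩
  · exact le_trans (by linarith) (le_max_left _ _)
  intro X Y T hX hXY hYX hT1 hT2
  have c1 : X1 ≤ X := le_trans (le_max_left _ _) hX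
  have c2 : Real.exp (max (max ℓ1 ℓ2) 10) ≤ X := le_trans (le_max_right _ _) hX
  have hX1' : (1 : ℝ) ≤ X := le_trans hX1 c1
  have hX0' : (0 : ℝ) < X := by linarith
  have hXn : 1 ≤ X := by exact_mod_cast hX1'
  set ℓ := Real.log X with hℓ
  have d0 : max (max ℓ1 ℓ2) 10 ≤ ℓ := by
    rw [hℓ, Real.le_log_iff_exp_le hX0']; exact c2
  have d1 : ℓ1 ≤ ℓ := le_trans (le_trans (le_max_left _ _) (le_max_left _ _)) d0
  have d2 : ℓ2 ≤ ℓ := le_trans (le_trans (le_max_right _ _) (le_max_left _ _)) d0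
  have d4 : 10 ≤ ℓ := le_trans (le_max_right _ _) d0
  have d3 : 2 ≤ ℓ := by linarith
  have hℓ1' : 1 ≤ ℓ := le_trans hℓ1 d1
  have hK1K : 2 * K0 * X ≤ Y := le_trans (mul_le_mul_of_nonneg_right (le_max_left _ _) hX0'.le) hXY
  have hXYr : (X : ℝ) ≤ Y := by
    have : (1 : ℝ) * X ≤ 2 * K0 * X := mul_le_mul_of_nonneg_right (by linarith) hX0'.le
    linarith
  have hXYn : X ≤ Y := by exact_mod_cast hXYr
  have hY0 : (0 : ℝ) < Y := by linarith
  have hYX2 : (Y : ℝ) ≤ (X : ℝ) ^ 2 := by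
    refine hYX.trans ?_
    calc (X : ℝ) ^ (1 + η1 / 3) ≤ (X : ℝ) ^ (2 : ℝ) := Real.rpow_le_rpow_of_exponent_le hX1' (by linarith)
      _ = (X : ℝ) ^ 2 := by norm_num
  have hTX : T ≤ X := by
    refine hT2.trans ?_
    calc (X : ℝ) ^ (η1 / 3) ≤ (X : ℝ) ^ (1 : ℝ) := Real.rpow_le_rpow_of_exponent_le hX1' (by linarith)
      _ = X := Real.rpow_one _
  have hTlow : 4 ≤ T := le_trans (by nlinarith only [d3]) hT1
  have hT0 : 0 < T := by linarith
  set n : (q : ℕ) → DirichletCharacter ℂ q → ℝ := fun q χ => (NN (L q χ) T (2 * T) : ℝ) with hn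
  set sf : (q : ℕ) → DirichletCharacter ℂ q → ℝ := fun q χ => (Ns (L q χ) T (2 * T) : ℝ) with hsf
  have hn0 : ∀ q χ, 0 ≤ n q χ := fun q χ => Nat.cast_nonneg _
  have hs0 : ∀ q χ, 0 ≤ sf q χ := fun q χ => Nat.cast_nonneg _
  -- the sum over `m`
  rw [window M X Y n, window M X Y sf]
  set mset := (Finset.Icc 1 Y).filter (fun m => Nat.Coprime m M) with hmset
  set B := Nat.sqrt X with hB
  set P : ((q : ℕ) → DirichletCharacter ℂ q → ℝ) → ℕ → ℝ :=
    fun f m => (1 / (m : ℝ) ^ 2) * H385.primFamM M (X / m) (Y / m) f with hP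
  have hP0 : ∀ m, 0 ≤ P n m := fun m => mul_nonneg (by positivity) (fam_nonneg hn0 _ _ _)
  have hPs0 : ∀ m, 0 ≤ P sf m := fun m => mul_nonneg (by positivity) (fam_nonneg hs0 _ _ _)
  have hsplit := Finset.sum_filter_add_sum_filter_not mset (fun m => m ≤ B) (P n)
  -- small `m`
  have hsmall : (0.6725 + δ) * ∑ m ∈ mset.filter (fun m => m ≤ B), P n m ≤ ∑ m ∈ mset.filter (fun m => m ≤ B), P sf m := by
    rw [Finset.mul_sum]
    apply Finset.sum_le_sum
    intro m hm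
    rw [mem_filter, hmset, mem_filter, mem_Icc] at hm
    obtain ⟨⟨⟨h1, _⟩, _⟩, h4⟩ := hm
    obtain ⟨w1, w2, w3, w4, w5⟩ := hsub X Y m T c1 hK1K hYX hT1 hT2 h1 h4
    have hx1 : (1 : ℝ) ≤ ((X / m : ℕ) : ℝ) := le_trans hX00 w1
    have w3' : ((Y / m : ℕ) : ℝ) ≤ ((X / m : ℕ) : ℝ) ^ (1 + η0) :=
      w3.trans (Real.rpow_le_rpow_of_exponent_le hx1 (by linarith [min_le_left η0 1]))
    have w5' : T ≤ ((X / m : ℕ) : ℝ) ^ η0 :=
      w5.trans (Real.rpow_le_rpow_of_exponent_le hx1 (min_le_left η0 1))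
    have := hW (X / m) (Y / m) T w1 w2 w3' w4 w5'
    calc (0.6725 + δ) * P n m = (1 / (m : ℝ) ^ 2) * ((0.6725 + δ) * H385.primFamM M (X / m) (Y / m) n) := by rw [hP]; ring
      _ ≤ (1 / (m : ℝ) ^ 2) * H385.primFamM M (X / m) (Y / m) sf := mul_le_mul_of_nonneg_left this (by positivity)
  -- large `m`
  have hlogY : Real.log Y ≤ 2 * ℓ := by
    have := Real.log_le_log hY0 hYX2
    rwa [Real.log_pow] at this
  have hlogY0 : 0 ≤ Real.log Y := Real.log_nonneg (by linarith)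
  have hlogT : Real.log T ≤ ℓ := Real.log_le_log hT0 hTX
  have hlog2D : Real.log 2 ≤ ℓ := by
    have := Real.log_two_lt_d9
    linarith
  set bn : ℝ := CU * T * (4 * ℓ) with hbn
  have hbn0 : 0 ≤ bn := by positivity
  have hup : ∀ e : ℕ, 1 ≤ e → e ≤ Y → Nat.Coprime e M → ∀ χ : DirichletCharacter ℂ e, χ.IsPrimitive → n e χ ≤ bn := by
    intro e h1 h2 h3 χ h4
    obtain ⟨a, ha⟩ := hPk.good e χ h1 (Nat.Coprime.coprime_dvd_right hNM h3) h4
    have hd0 : (1 : ℝ) ≤ e := by exact_mod_cast h1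
    have h5 := hU _ (L e χ) a hd0 ha T (2 * T) (by linarith) (by linarith)
    refine h5.trans ?_
    have h6 : 2 * T - T = T := by ring
    rw [h6, hbn]
    apply mul_le_mul_of_nonneg_left _ (by positivity)
    have h7 : (e : ℝ) * (2 * T) ≤ Y * 2 * T := by
      have h8 : (e : ℝ) ≤ Y := by exact_mod_cast h2
      calc (e : ℝ) * (2 * T) = e * 2 * T := by ring
        _ ≤ Y * 2 * T := by gcongr
    have h9 := Real.log_le_log (mul_pos (by linarith) (by linarith)) h7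
    have h10 : Real.log (Y * 2 * T) = Real.log Y + Real.log 2 + Real.log T := by
      rw [Real.log_mul (by positivity) (by positivity), Real.log_mul (by positivity) (by positivity)]
    linarith
  have htail : ∑ m ∈ mset.filter (fun m => ¬ m ≤ B), P n m ≤ δ * T := by
    have e1 : ∀ m ∈ mset.filter (fun m => ¬ m ≤ B), P n m ≤ (bn * (1 + Real.log Y)) * ((m : ℝ) ^ 2)⁻¹ := by
      intro m hm
      rw [mem_filter, hmset, mem_filter, mem_Icc] at hm
      have h1 : H385.primFamM M (X / m) (Y / m) n ≤ bn * (1 + Real.log Y) :=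
        fam_le hbn0 (Nat.div_le_self Y m) (by omega) hup
      calc P n m = (1 / (m : ℝ) ^ 2) * H385.primFamM M (X / m) (Y / m) n := rfl
        _ ≤ (1 / (m : ℝ) ^ 2) * (bn * (1 + Real.log Y)) := mul_le_mul_of_nonneg_left h1 (by positivity)
        _ = _ := by ring
    refine (Finset.sum_le_sum e1).trans ?_
    rw [← Finset.mul_sum]
    have e2 : ∑ m ∈ mset.filter (fun m => ¬ m ≤ B), ((m : ℝ) ^ 2)⁻¹ ≤ 2 / ((B : ℝ) + 1) := by
      refine le_trans ?_ (sum_Ioo_inv_sq_le (α := ℝ) B (Y + 1))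
      apply Finset.sum_le_sum_of_subset_of_nonneg
      · intro m hm
        rw [mem_filter, hmset, mem_filter, mem_Icc] at hm
        rw [mem_Ioo]
        omega
      · intro m _ _
        positivity
    have hBr : Real.exp (ℓ / 2) ≤ (B : ℝ) + 1 := by
      have h1 : X < (B + 1) * (B + 1) := Nat.lt_succ_sqrt X
      have h2 : (X : ℝ) < ((B : ℝ) + 1) * (B + 1) := by exact_mod_cast h1
      have h3 : Real.exp (ℓ / 2) ^ 2 = X := by
        rw [← Real.exp_nat_mul, hℓ]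
        push_cast
        rw [show (2 : ℝ) * (Real.log X / 2) = Real.log X by ring, Real.exp_log hX0']
      have h4 : 0 ≤ (B : ℝ) + 1 := by positivity
      by_contra hcon
      push Not at hcon
      have := mul_self_lt_mul_self h4 hcon
      rw [← sq (Real.exp (ℓ / 2)), h3] at this
      linarith
    have hE := hexp ℓ d2
    have hEpos := Real.exp_pos (ℓ / 2)
    have e3 : 1 + Real.log Y ≤ 3 * ℓ := by linarith
    calc (bn * (1 + Real.log Y)) * ∑ m ∈ mset.filter (fun m => ¬ m ≤ B), ((m : ℝ) ^ 2)⁻¹ ≤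
          (bn * (3 * ℓ)) * (2 / ((B : ℝ) + 1)) := by
            apply mul_le_mul _ e2 (Finset.sum_nonneg fun m _ => by positivity) (by positivity)
            exact mul_le_mul_of_nonneg_left e3 hbn0
      _ ≤ (bn * (3 * ℓ)) * (2 / Real.exp (ℓ / 2)) := by
            apply mul_le_mul_of_nonneg_left _ (by positivity)
            exact div_le_div_of_nonneg_left (by norm_num) hEpos hBr
      _ = (δ * T) * (24 * CU / δ * ℓ ^ 2 / Real.exp (ℓ / 2)) := by rw [hbn]; field_simp; ring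
      _ ≤ (δ * T) * 1 := by
            apply mul_le_mul_of_nonneg_left _ (by positivity)
            rw [div_le_one hEpos]; exact hE
      _ = δ * T := mul_one _
  -- the term `m = 1`
  have hB1 : 1 ≤ B := by
    rw [hB, Nat.le_sqrt]
    omega
  have h1mem : 1 ∈ mset.filter (fun m => m ≤ B) := by
    rw [mem_filter, hmset, mem_filter, mem_Icc]
    exact ⟨⟨⟨le_rfl, by omega⟩, Nat.coprime_one_left M⟩, hB1⟩
  have hmain : T * ℓ / 10 ≤ ∑ m ∈ mset.filter (fun m => m ≤ B), P n m := by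
    refine le_trans ?_ (Finset.single_le_sum (fun m _ => hP0 m) h1mem)
    have e1 : P n 1 = H385.primFamM M X Y n := by
      show (1 / ((1 : ℕ) : ℝ) ^ 2) * H385.primFamM M (X / 1) (Y / 1) n = _
      rw [Nat.div_one, Nat.div_one]
      norm_num
    rw [e1]
    have e2 : 1 ≤ H385.primFamM M X Y (fun _ _ => 1) := by
      have h1 := (abs_le.1 (hmass X Y hXn hXYn)).1
      rw [W388.primFamM_rad hM0] at h1
      have h2 : Real.exp ((Cm + 1) / H385.cM (W388.rad M)) ≤ (Y : ℝ) / X := by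
        rw [le_div_iff₀ hX0']
        exact le_trans (mul_le_mul_of_nonneg_right (le_max_right _ _) hX0'.le) hXY
      have h3 : (Cm + 1) / H385.cM (W388.rad M) ≤ Real.log ((Y : ℝ) / X) := by
        rw [Real.le_log_iff_exp_le (by positivity)]; exact h2
      rw [div_le_iff₀ hcM] at h3
      linarith
    have e3 := fam_ge (f := n) (c := T * ℓ / 10) (M := M) (X := X) (Y := Y) (by positivity) (by
      intro e h1 h2 h3 χ h4
      obtain ⟨a, ha⟩ := hPk.good e χ (by omega) (Nat.Coprime.coprime_dvd_right hNM h3) h4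
      refine hLow X e (L e χ) a T hX1' d1 ?_ ?_ hT1 hTX ha
      · exact_mod_cast h1.le
      · refine le_trans ?_ hYX2
        exact_mod_cast h2)
    calc T * ℓ / 10 = T * ℓ / 10 * 1 := (mul_one _).symm
      _ ≤ T * ℓ / 10 * H385.primFamM M X Y (fun _ _ => 1) := mul_le_mul_of_nonneg_left e2 (by positivity)
      _ ≤ _ := e3
  have hnot : 0 ≤ ∑ m ∈ mset.filter (fun m => ¬ m ≤ B), P n m :=
    Finset.sum_nonneg fun m _ => hP0 m
  refine ⟨?_, ?_⟩
  · show T * ℓ / 10 ≤ ∑ m ∈ mset, P n m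
    linarith
  have hle : ∑ m ∈ mset.filter (fun m => m ≤ B), P sf m ≤ ∑ m ∈ mset, P sf m :=
    Finset.sum_le_sum_of_subset_of_nonneg (Finset.filter_subset _ _) (fun m _ _ => hPs0 m)
  have h6 : 0.6725 * (δ * T) ≤ δ * ∑ m ∈ mset.filter (fun m => m ≤ B), P n m := by
    have h1 : T ≤ ∑ m ∈ mset.filter (fun m => m ≤ B), P n m := by
      refine le_trans ?_ hmain
      have := mul_le_mul_of_nonneg_left d4 hT0.le
      linarith
    have := mul_le_mul_of_nonneg_left h1 hδ.le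
    have h0 : 0 ≤ δ * T := by positivity
    linarith
  have hgoal : 0.6725 * ∑ m ∈ mset, P n m ≤ ∑ m ∈ mset, P sf m := by
    rw [← hsplit]
    nlinarith
  exact hgoal

end Pool.Agent.H440.MC
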