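import Pool.Agent.H440.MC.PackC
import Pool.Graph.R_seed8.W165.CE.EulerM

/-!
The Euler product of a family of twists over the cyclotomic field of level `q` (helper440; adapted from
`W165.CE.EulerM`, owner helper165).
-/

set_option autoImplicit false

namespace Pool.Agent.H440.MC

open NumberField IsDedekindDomain Filter
open Pool.Agent.H921R2.TatePole
open Pool.Agent.H82R3.EK (deg_and_count nm_cpow prime_cpow prod_prim)
open W165.CE (pw pw_eq root_bd exists_roots' prod_quad' summable_below)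

section
variable {K : Type} [Field K] [NumberField K]

/-- the local factor at `v` of the base change -/
noncomputable def facG (t u : ℕ → ℂ) (s : ℂ) (v : HeightOneSpectrum (𝓞 K)) : ℂ :=
  (1 - pw (t (Ideal.absNorm v.asIdeal).minFac) (u (Ideal.absNorm v.asIdeal).minFac)
        ((Ideal.absNorm v.asIdeal).factorization (Ideal.absNorm v.asIdeal).minFac)
        * ((Ideal.absNorm v.asIdeal : ℕ) : ℂ) ^ (-s)
    + u (Ideal.absNorm v.asIdeal).minFac ^
        ((Ideal.absNorm v.asIdeal).factorization (Ideal.absNorm v.asIdeal).minFac) *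
        (((Ideal.absNorm v.asIdeal : ℕ) : ℂ) ^ (-s)) ^ 2)⁻¹

/-- the factor in terms of the prime below -/
lemma facG_eq (t u : ℕ → ℂ) (v : HeightOneSpectrum (𝓞 K)) (s : ℂ) :
    facG t u s v = (1 - pw (t (below v)) (u (below v)) (deg v) *
        (((below v : ℕ) : ℂ) ^ (-s)) ^ deg v +
      u (below v) ^ deg v * (((below v : ℕ) : ℂ) ^ (-s)) ^ (2 * deg v))⁻¹ := by
  have hb : (Ideal.absNorm v.asIdeal).minFac = (below v : ℕ) := rfl
  have hd : (Ideal.absNorm v.asIdeal).factorization (Ideal.absNorm v.asIdeal).minFac = deg v := rfl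
  unfold facG
  rw [hd, hb, nm_cpow, ← pow_mul, mul_comm (deg v) 2]

/-- the part of the factor different from one -/
lemma facG_sub_bound (t u : ℕ → ℂ) (hu : ∀ p, ‖u p‖ ≤ 1) (v : HeightOneSpectrum (𝓞 K)) (s : ℂ)
    (hz : ‖t (below v) * (((below v : ℕ) : ℂ)) ^ (-s)‖ + ((below v : ℕ) : ℝ) ^ (-s.re) ≤ 1 / 6) :
    ‖facG t u s v - 1‖ ≤
      6 * (‖t (below v) * (((below v : ℕ) : ℂ)) ^ (-s)‖ + ((below v : ℕ) : ℝ) ^ (-s.re)) := by
  set p : ℕ := (below v : ℕ) with hp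
  have hpp : p.Prime := (below v).2
  have hp0 : (0 : ℝ) < p := by exact_mod_cast hpp.pos
  set z : ℝ := ‖t p * ((p : ℂ)) ^ (-s)‖ + (p : ℝ) ^ (-s.re) with hzdef
  have hz0 : 0 ≤ z := by positivity
  rw [facG_eq]
  obtain ⟨α, β, h1, h2⟩ := exists_roots' (t p) (u p)
  set X : ℂ := (p : ℂ) ^ (-s) with hX
  have hXn : ‖X‖ = (p : ℝ) ^ (-s.re) := by
    rw [hX, Complex.norm_natCast_cpow_of_pos hpp.pos, Complex.neg_re]
  have key : ∀ γ : ℂ, ‖γ‖ ≤ ‖t p‖ + Real.sqrt 1 → ‖(γ * X) ^ deg v‖ ≤ z := by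
    intro γ hγ
    have e1 : ‖γ * X‖ ≤ z := by
      rw [norm_mul, hzdef, norm_mul, hXn]
      calc ‖γ‖ * (p : ℝ) ^ (-s.re) ≤ (‖t p‖ + Real.sqrt 1) * (p : ℝ) ^ (-s.re) :=
            mul_le_mul_of_nonneg_right hγ (by positivity)
        _ = _ := by rw [Real.sqrt_one, add_mul, one_mul]
    rw [norm_pow]
    calc ‖γ * X‖ ^ deg v ≤ z ^ deg v := pow_le_pow_left₀ (norm_nonneg _) e1 _
      _ ≤ z := pow_le_of_le_one hz0 (by linarith) (nm_eq v).2.1.ne'
  have hA := key α (root_bd zero_le_one (hu p) h1 h2)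
  have hB := key β (root_bd zero_le_one (hu p) (by rw [add_comm]; exact h1)
    (by rw [mul_comm]; exact h2))
  set A := (α * X) ^ deg v with hAd
  set B := (β * X) ^ deg v with hBd
  have e1 : 1 - pw (t p) (u p) (deg v) * X ^ deg v + u p ^ deg v * X ^ (2 * deg v) =
      1 + (-(A + B - A * B)) := by
    rw [pw_eq h1 h2, ← h2, hAd, hBd, mul_pow, mul_pow, mul_pow, pow_mul']
    ring
  rw [e1]
  set w := -(A + B - A * B) with hw
  have ht1 : ‖w‖ ≤ 3 * z := by
    rw [hw, norm_neg]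
    have h3 : ‖A * B‖ ≤ z * z := by
      rw [norm_mul]; exact mul_le_mul hA hB (norm_nonneg _) hz0
    calc ‖A + B - A * B‖ ≤ ‖A + B‖ + ‖A * B‖ := norm_sub_le _ _
      _ ≤ (‖A‖ + ‖B‖) + z * z := add_le_add (norm_add_le _ _) h3
      _ ≤ 3 * z := by nlinarith
  have h3 : 1 / 2 ≤ ‖1 + w‖ := by
    have := norm_sub_norm_le (1 : ℂ) (-w)
    rw [sub_neg_eq_add, norm_neg, norm_one] at this
    linarith
  have hne : 1 + w ≠ 0 := by
    intro h
    rw [h, norm_zero] at h3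
    linarith
  have e4 : (1 + w)⁻¹ - 1 = -w / (1 + w) := by field_simp; ring
  rw [e4, norm_div, norm_neg, div_le_iff₀ (by linarith)]
  nlinarith [norm_nonneg w]

lemma multipliable_facG (t u : ℕ → ℂ) (hu : ∀ p, ‖u p‖ ≤ 1) (s : ℂ) (hs : 1 < s.re)
    (hc : Summable (fun p : Nat.Primes => ‖t p * ((p : ℕ) : ℂ) ^ (-s)‖)) :
    Multipliable (facG (K := K) t u s) := by
  set z : Nat.Primes → ℝ := fun p => ‖t p * ((p : ℕ) : ℂ) ^ (-s)‖ + ((p : ℕ) : ℝ) ^ (-s.re) with hz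
  have hz0 : ∀ p, 0 ≤ z p := fun p => by rw [hz]; positivity
  have hzs : Summable z := hc.add (Nat.Primes.summable_rpow.2 (by linarith))
  have hv := summable_below (K := K) hz0 hzs
  have h1 : Summable (fun v : HeightOneSpectrum (𝓞 K) => ‖facG t u s v - 1‖) := by
    refine Summable.of_norm_bounded_eventually (hv.mul_left 6) ?_
    have h2 := hv.tendsto_cofinite_zero.eventually (Iio_mem_nhds (by norm_num : (0 : ℝ) < 1 / 6))
    filter_upwards [h2] with v hv
    rw [norm_norm]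
    exact facG_sub_bound t u hu v s (le_of_lt hv)
  have h2 := multipliable_one_add_of_summable h1
  refine h2.congr (fun v => ?_)
  ring

variable (K) in
/-- product over the places above `p` -/
lemma fiber_prodG (t u : ℕ → ℂ)
    (q : ℕ) [NeZero q] [IsCyclotomicExtension {q} ℚ K] (p : Nat.Primes)
    (m k : ℕ) [NeZero m] (hq : q = (p : ℕ) ^ k * m) (hm : ¬ (p : ℕ) ∣ m) (s : ℂ) :
    ∏ v : {v : HeightOneSpectrum (𝓞 K) // below v = p}, facG t u s v.1 =
      ((1 - pw (t p) (u p) (orderOf ((p : ℕ) : ZMod m)) *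
        (((p : ℕ) : ℂ) ^ (-s)) ^ orderOf ((p : ℕ) : ZMod m) +
        u p ^ orderOf ((p : ℕ) : ZMod m) *
          (((p : ℕ) : ℂ) ^ (-s)) ^ (2 * orderOf ((p : ℕ) : ZMod m))) ^
          (Nat.totient m / orderOf ((p : ℕ) : ZMod m)))⁻¹ := by
  obtain ⟨h1, h2⟩ := deg_and_count K q p m k hq hm
  have h3 : ∀ v : {v : HeightOneSpectrum (𝓞 K) // below v = p}, facG t u s v.1 =
      (1 - pw (t p) (u p) (orderOf ((p : ℕ) : ZMod m)) *
        (((p : ℕ) : ℂ) ^ (-s)) ^ orderOf ((p : ℕ) : ZMod m) +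
        u p ^ orderOf ((p : ℕ) : ZMod m) *
          (((p : ℕ) : ℂ) ^ (-s)) ^ (2 * orderOf ((p : ℕ) : ZMod m)))⁻¹ := by
    rintro ⟨v, hv⟩
    have h4 := h1 v hv
    subst hv
    rw [facG_eq t u v, h4]
  rw [Finset.prod_congr rfl (fun v _ => h3 v), Finset.prod_const, Finset.card_univ, h2, inv_pow]

end

/-- the Euler factor of the twist by a Dirichlet character -/
noncomputable def eulG (t u : ℕ → ℂ) (q : ℕ) (χ : DirichletCharacter ℂ q) (s : ℂ) (p : ℕ) : ℂ :=
  (1 - χ ((p : ℕ) : ZMod q) * t p * (p : ℂ) ^ (-s) +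
    χ ((p : ℕ) : ZMod q) ^ 2 * (u p * ((p : ℂ) ^ (-s)) ^ 2))⁻¹

/-- product over the characters -/
lemma char_prodG (t u : ℕ → ℂ) (q : ℕ) [NeZero q] (p : ℕ) (hpp : p.Prime)
    (m k : ℕ) [NeZero m] (hq : q = p ^ k * m) (hm : ¬ p ∣ m) (s : ℂ) :
    ∏ χ : DirichletCharacter ℂ q, eulG t u χ.conductor χ.primitiveCharacter s p =
      ((1 - pw (t p) (u p) (orderOf ((p : ℕ) : ZMod m)) *
        (((p : ℕ) : ℂ) ^ (-s)) ^ orderOf ((p : ℕ) : ZMod m) +
        u p ^ orderOf ((p : ℕ) : ZMod m) *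
          (((p : ℕ) : ℂ) ^ (-s)) ^ (2 * orderOf ((p : ℕ) : ZMod m))) ^
          (Nat.totient m / orderOf ((p : ℕ) : ZMod m)))⁻¹ := by
  have h1 : ∀ χ : DirichletCharacter ℂ q, eulG t u χ.conductor χ.primitiveCharacter s p =
      (fun z : ℂ => (1 - z * t p * (p : ℂ) ^ (-s) +
        z ^ 2 * (u p * ((p : ℂ) ^ (-s)) ^ 2))⁻¹)
        (χ.primitiveCharacter ((p : ℕ) : ZMod χ.conductor)) := fun χ => rfl
  simp_rw [h1]
  rw [prod_prim p hpp q m k hq hm (fun z : ℂ => (1 - z * t p * (p : ℂ) ^ (-s) +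
        z ^ 2 * (u p * ((p : ℂ) ^ (-s)) ^ 2))⁻¹) (by simp)]
  have hu : IsUnit ((p : ℕ) : ZMod m) :=
    (ZMod.isUnit_iff_coprime p m).2 ((Nat.Prime.coprime_iff_not_dvd hpp).2 hm)
  rw [Finset.prod_inv_distrib, prod_quad' m ((p : ℕ) : ZMod m) hu]

/-- the Euler product -/
theorem hasProd_eulerG {d : ℝ} {r N : ℕ} {t u : ℕ → ℂ} {A : ℝ}
    {L : (q : ℕ) → DirichletCharacter ℂ q → ℂ → ℂ} (hPk : Pack d r N t u A L)
    (q : ℕ) [NeZero q] (hq : Nat.Coprime q N) (K : Type) [Field K] [NumberField K]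
    [IsCyclotomicExtension {q} ℚ K] (s : ℂ) (hs : 1 < s.re) :
    HasProd (facG (K := K) t u s)
      (∏ χ : DirichletCharacter ℂ q, L χ.conductor χ.primitiveCharacter s) := by
  have h1 : HasProd (fun p : Nat.Primes => ∏ χ : DirichletCharacter ℂ q,
      eulG t u χ.conductor χ.primitiveCharacter s p)
      (∏ χ : DirichletCharacter ℂ q, L χ.conductor χ.primitiveCharacter s) := by
    apply hasProd_prod
    intro χ _
    exact hPk.euler χ.conductor χ.primitiveCharacter (Nat.one_le_iff_ne_zero.2 χ.conductor_ne_zero)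
      (Nat.Coprime.coprime_dvd_left χ.conductor_dvd_level hq)
      χ.primitiveCharacter_isPrimitive s hs
  have h2 : ∀ p : Nat.Primes, ∏ χ : DirichletCharacter ℂ q,
      eulG t u χ.conductor χ.primitiveCharacter s p =
      ∏ v : {v : HeightOneSpectrum (𝓞 K) // below v = p}, facG t u s v.1 := by
    intro p
    obtain ⟨k, m, hm, hqm⟩ := Nat.exists_eq_pow_mul_and_not_dvd (NeZero.ne q) (p : ℕ) p.2.ne_one
    have : NeZero m := ⟨by rintro rfl; exact hm (dvd_zero _)⟩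
    rw [char_prodG t u q p p.2 m k hqm hm s, fiber_prodG K t u q p m k hqm hm s]
  simp_rw [h2] at h1
  have h3 : Multipliable (facG (K := K) t u s) := multipliable_facG t u hPk.le s hs (hPk.sum s hs)
  rw [← (Equiv.sigmaFiberEquiv (below (K := K))).hasProd_iff]
  refine HasProd.sigma_of_hasProd h1 (fun p => ?_) ?_
  · exact hasProd_fintype _
  · exact (Equiv.sigmaFiberEquiv (below (K := K))).multipliable_iff.2 h3

end Pool.Agent.H440.MC
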