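import Pool.Agent.H440.MC.PackD
import Pool.Agent.H440.MC.Avg
import Pool.Agent.H440.MC.Euler

/-!
Finite products of families of twists over all Dirichlet characters of level `q` (helper440; after
`MP_7193be_nt.ModularCurves6725`, helper165).
-/

set_option autoImplicit false
set_option maxHeartbeats 4000000

open Finset DirichletCharacter NumberField IsDedekindDomain
open H370 (zset mult NN Nd Ns)
open Pool.Agent.H82R3.EK (SS cnt strip line NN_eq Ns_le cnt_prod)

namespace Pool.Agent.H440.MC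

variable {ι : Type} [Fintype ι]

/-- the product over the members and all characters modulo `q` -/
noncomputable def GG (F : ι → (q : ℕ) → DirichletCharacter ℂ q → ℂ → ℂ) (q : ℕ) (z : ℂ) : ℂ :=
  ∏ x, ∏ᶠ χ : DirichletCharacter ℂ q, F x χ.conductor χ.primitiveCharacter z

section
variable {dg : ι → ℝ} {r Lv : ι → ℕ} {t u : ι → ℕ → ℂ} {A : ι → ℝ}
  {F : ι → (q : ℕ) → DirichletCharacter ℂ q → ℂ → ℂ}

lemma cond_pos (q : ℕ) [NeZero q] (χ : DirichletCharacter ℂ q) : 1 ≤ χ.conductor :=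
  Nat.one_le_iff_ne_zero.2 χ.conductor_ne_zero

lemma cond_cop {q N L : ℕ} (hqN : Nat.Coprime q N) (hL : L ∣ N) (χ : DirichletCharacter ℂ q) :
    Nat.Coprime χ.conductor L :=
  Nat.Coprime.coprime_dvd_right hL (Nat.Coprime.coprime_dvd_left χ.conductor_dvd_level hqN)

/-- the function without its pole is entire -/
theorem GG_entire (hP : ∀ x, Pack (dg x) (r x) (Lv x) (t x) (u x) (A x) (F x)) {N : ℕ}
    (hN : ∀ x, Lv x ∣ N) {q : ℕ} (hq : 1 ≤ q) (hqN : Nat.Coprime q N) :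
    ∃ E : ℂ → ℂ, Differentiable ℂ E ∧ ∀ s : ℂ, s ≠ 1 → E s = (s - 1) ^ (∑ x, r x) * GG F q s := by
  classical
  have : NeZero q := ⟨by omega⟩
  have h : ∀ (x : ι) (χ : DirichletCharacter ℂ q), ∃ G : ℂ → ℂ, Differentiable ℂ G ∧
      ∀ s : ℂ, s ≠ 1 → G s = (s - 1) ^ (if χ.conductor = 1 then r x else 0) *
        F x χ.conductor χ.primitiveCharacter s := fun x χ =>
    (hP x).ent χ.conductor χ.primitiveCharacter (cond_pos q χ) (cond_cop hqN (hN x) χ)
      χ.primitiveCharacter_isPrimitive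
  choose G hG h using h
  refine ⟨fun s => ∏ x, ∏ χ, G x χ s, ?_, ?_⟩
  · exact Differentiable.fun_finsetProd fun x _ => Differentiable.fun_finsetProd fun χ _ => hG x χ
  · intro s hs
    unfold GG
    simp only [finprod_eq_prod_of_fintype]
    rw [← Finset.prod_pow_eq_pow_sum, ← Finset.prod_mul_distrib]
    refine Finset.prod_congr rfl fun x _ => ?_
    simp_rw [h x _ s hs]
    rw [Finset.prod_mul_distrib]
    congr 1
    rw [Finset.prod_eq_single (1 : DirichletCharacter ℂ q)]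
    · rw [if_pos (conductor_one (R := ℂ) (n := q))]
    · intro χ _ hχ
      rw [if_neg, pow_zero]
      intro h1
      exact hχ (χ.eq_one_iff_conductor_eq_one.mpr h1)
    · intro h1
      exact absurd (Finset.mem_univ _) h1

/-- the Euler product over the places of the cyclotomic field -/
theorem GG_euler (hP : ∀ x, Pack (dg x) (r x) (Lv x) (t x) (u x) (A x) (F x)) {N : ℕ}
    (hN : ∀ x, Lv x ∣ N) {q : ℕ} (hq : 1 ≤ q) (hqN : Nat.Coprime q N) (K : Type) [Field K]
    [NumberField K] [IsCyclotomicExtension {q} ℚ K] (s : ℂ) (hs : 1 < s.re) :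
    HasProd (fun v : HeightOneSpectrum (𝓞 K) => ∏ x, facG (t x) (u x) s v) (GG F q s) := by
  have : NeZero q := ⟨by omega⟩
  unfold GG
  simp only [finprod_eq_prod_of_fintype]
  exact hasProd_prod fun x _ => hasProd_eulerG (hP x) q
    (Nat.Coprime.coprime_dvd_right (hN x) hqN) K s hs

/-- the zeros -/
theorem GG_zeros (hP : ∀ x, Pack (dg x) (r x) (Lv x) (t x) (u x) (A x) (F x)) {N : ℕ}
    (hN : ∀ x, Lv x ∣ N) {q : ℕ} (hq : 1 ≤ q) (hqN : Nat.Coprime q N) {T : ℝ} (hT1 : 1 ≤ T) :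
    (zset (GG F q) T (2 * T)).Finite ∧
    (cnt (GG F q) (strip T (2 * T)) : ℝ) =
        ∑ x, SS (fun q χ => (NN (F x q χ) T (2 * T) : ℝ)) q ∧
      ∑ x, SS (fun q χ => (Ns (F x q χ) T (2 * T) : ℝ)) q ≤
        (cnt (GG F q) (line T (2 * T)) : ℝ) := by
  classical
  have : NeZero q := ⟨by omega⟩
  have hG : ∀ (y : ι × DirichletCharacter ℂ q), ∃ a : ℕ → ℂ,
      W388.GoodE (dg y.1) (A y.1) (y.2.conductor : ℝ)
        (F y.1 y.2.conductor y.2.primitiveCharacter) a := by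
    rintro ⟨x, χ⟩
    exact (hP x).good χ.conductor χ.primitiveCharacter (cond_pos q χ) (cond_cop hqN (hN x) χ)
      χ.primitiveCharacter_isPrimitive
  have hQ : ∀ χ : DirichletCharacter ℂ q, (1 : ℝ) ≤ (χ.conductor : ℝ) := by
    intro χ
    exact_mod_cast cond_pos q χ
  have hfin : ∀ y : ι × DirichletCharacter ℂ q,
      (zset (F y.1 y.2.conductor y.2.primitiveCharacter) T (2 * T)).Finite := by
    intro y
    obtain ⟨a, ha⟩ := hG y
    exact W388.zset_finite_D (hP y.1).hA (hQ y.2) ha T (2 * T) hT1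
  have han : ∀ (y : ι × DirichletCharacter ℂ q) (s : ℂ), 0 < s.im →
      AnalyticAt ℂ (F y.1 y.2.conductor y.2.primitiveCharacter) s := by
    intro y s hs
    obtain ⟨a, ha⟩ := hG y
    exact ha.an s hs
  have htop : ∀ (y : ι × DirichletCharacter ℂ q) (s : ℂ), 0 < s.im →
      analyticOrderAt (F y.1 y.2.conductor y.2.primitiveCharacter) s ≠ ⊤ := by
    intro y s hs
    obtain ⟨a, ha⟩ := hG y
    have h1 : F y.1 y.2.conductor y.2.primitiveCharacter (⟨2, 1⟩ : ℂ) ≠ 0 :=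
      ha.nzr _ (by norm_num) (by norm_num)
    exact H370.Loc.order_ne_top (K := {s : ℂ | 0 < s.im}) (convex_halfSpace_im_gt 0).isPreconnected
      (fun z hz => han y z hz) (show (0 : ℝ) < (⟨2, 1⟩ : ℂ).im by norm_num) h1 hs
  have e1 : GG F q = fun z : ℂ => ∏ y : ι × DirichletCharacter ℂ q,
      F y.1 y.2.conductor y.2.primitiveCharacter z := by
    funext z
    unfold GG
    simp only [finprod_eq_prod_of_fintype]
    rw [Fintype.prod_prod_type]
  have hfs : ∀ y : ι × DirichletCharacter ℂ q,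
      {s : ℂ | s ∈ strip T (2 * T) ∧ F y.1 y.2.conductor y.2.primitiveCharacter s = 0}.Finite := by
    intro y
    refine (hfin y).subset ?_
    rintro s ⟨⟨h1, h2, h3, h4⟩, h5⟩
    exact ⟨h1, h2, h3, h4, h5⟩
  have hfl : ∀ y : ι × DirichletCharacter ℂ q,
      {s : ℂ | s ∈ line T (2 * T) ∧ F y.1 y.2.conductor y.2.primitiveCharacter s = 0}.Finite := by
    intro y
    refine (hfin y).subset ?_
    rintro s ⟨⟨h1, h2, h3⟩, h4⟩
    exact ⟨by rw [h1]; norm_num, by rw [h1]; norm_num, h2, h3, h4⟩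
  refine ⟨?_, ?_, ?_⟩
  · refine (Set.finite_iUnion hfs).subset ?_
    rintro s ⟨h1, h2, h3, h4, h5⟩
    rw [e1] at h5
    obtain ⟨y, -, hy⟩ := Finset.prod_eq_zero_iff.mp h5
    exact Set.mem_iUnion.2 ⟨y, ⟨h1, h2, h3, h4⟩, hy⟩
  · rw [e1]
    unfold SS
    simp only [finsum_eq_sum_of_fintype]
    rw [cnt_prod Finset.univ (fun y : ι × DirichletCharacter ℂ q =>
          F y.1 y.2.conductor y.2.primitiveCharacter)
        (W := strip T (2 * T)) (fun y _ s hs => han y s (by linarith [hs.2.2.1]))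
        (fun y _ s hs => htop y s (by linarith [hs.2.2.1])) (fun y _ => hfs y)]
    push_cast
    rw [Fintype.sum_prod_type]
    exact Finset.sum_congr rfl fun j _ => Finset.sum_congr rfl fun χ _ => by rw [NN_eq]
  · rw [e1]
    unfold SS
    simp only [finsum_eq_sum_of_fintype]
    rw [cnt_prod Finset.univ (fun y : ι × DirichletCharacter ℂ q =>
          F y.1 y.2.conductor y.2.primitiveCharacter)
        (W := line T (2 * T)) (fun y _ s hs => han y s (by linarith [hs.2.1]))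
        (fun y _ s hs => htop y s (by linarith [hs.2.1])) (fun y _ => hfl y)]
    push_cast
    rw [Fintype.sum_prod_type]
    exact Finset.sum_le_sum fun j _ => Finset.sum_le_sum fun χ _ => by
      exact_mod_cast Ns_le _ T (2 * T) (hfin (j, χ))

/-- the averages -/
theorem GG_avg [Nonempty ι] (hP : ∀ x, Pack (dg x) (r x) (Lv x) (t x) (u x) (A x) (F x)) {N : ℕ}
    (hN0 : N ≠ 0) (hN : ∀ x, Lv x ∣ N) :
    ∃ κ η X₀ : ℝ, 1 ≤ κ ∧ 0 < η ∧ 1 ≤ X₀ ∧
        ∀ (X Y : ℕ) (T : ℝ), X₀ ≤ X → κ * X ≤ Y → (Y : ℝ) ≤ (X : ℝ) ^ (1 + η) →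
        (Real.log X) ^ 2 ≤ T → T ≤ (X : ℝ) ^ η → 1 ≤ T ∧
        Fintype.card ι * (T * Real.log X / 10) ≤
          ∑ q ∈ (Finset.Ioc X Y).filter (fun q => Nat.Coprime q N),
            (1 / (q : ℝ) ^ 2) * (cnt (GG F q) (strip T (2 * T)) : ℝ) ∧
        0.6725 * ∑ q ∈ (Finset.Ioc X Y).filter (fun q => Nat.Coprime q N),
            (1 / (q : ℝ) ^ 2) * (cnt (GG F q) (strip T (2 * T)) : ℝ) ≤
          ∑ q ∈ (Finset.Ioc X Y).filter (fun q => Nat.Coprime q N),
            (1 / (q : ℝ) ^ 2) * (cnt (GG F q) (line T (2 * T)) : ℝ) := by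
  classical
  have hav := fun x => avg (hP x) hN0 (hN x)
  choose κ η X0 hκ hη hX0 h using hav
  obtain ⟨j0⟩ := (inferInstance : Nonempty ι)
  have hκs : ∀ j, κ j ≤ ∑ i, κ i := fun j =>
    Finset.single_le_sum (f := κ) (fun i _ => le_trans zero_le_one (hκ i)) (Finset.mem_univ j)
  have hXs : ∀ j, X0 j ≤ ∑ i, X0 i := fun j =>
    Finset.single_le_sum (f := X0) (fun i _ => le_trans zero_le_one (hX0 i)) (Finset.mem_univ j)
  have hηs : ∀ j, (∑ i, (η i)⁻¹)⁻¹ ≤ η j := fun j => by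
    have h1 : (η j)⁻¹ ≤ ∑ i, (η i)⁻¹ :=
      Finset.single_le_sum (f := fun i => (η i)⁻¹) (fun i _ => (inv_pos.2 (hη i)).le)
        (Finset.mem_univ j)
    have h2 := inv_anti₀ (inv_pos.2 (hη j)) h1
    rwa [inv_inv] at h2
  have hη0 : 0 < (∑ i, (η i)⁻¹)⁻¹ := by
    refine inv_pos.2 (Finset.sum_pos (fun i _ => inv_pos.2 (hη i)) ⟨j0, Finset.mem_univ _⟩)
  refine ⟨∑ i, κ i, (∑ i, (η i)⁻¹)⁻¹, max (∑ i, X0 i) 3, le_trans (hκ j0) (hκs j0), hη0,
    le_trans (le_trans (hX0 j0) (hXs j0)) (le_max_left _ _), ?_⟩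
  intro X Y T a1 a2 a3 a4 a5
  have hX3 : (3 : ℝ) ≤ X := le_trans (le_max_right _ _) a1
  have hX0' : (0 : ℝ) < X := by linarith
  have hb := fun j => h j X Y T (le_trans (hXs j) (le_trans (le_max_left _ _) a1))
      (le_trans (mul_le_mul_of_nonneg_right (hκs j) hX0'.le) a2)
      (a3.trans (Real.rpow_le_rpow_of_exponent_le (by linarith) (by linarith [hηs j]))) a4
      (a5.trans (Real.rpow_le_rpow_of_exponent_le (by linarith) (hηs j)))
  have hT1 : 1 ≤ T := by
    refine le_trans ?_ a4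
    have h1 : 1 ≤ Real.log X := by
      rw [Real.le_log_iff_exp_le (by linarith)]
      exact le_trans (by have := Real.exp_one_lt_d9; linarith) hX3
    nlinarith
  have key : ∀ q ∈ (Finset.Ioc X Y).filter (fun q => Nat.Coprime q N),
      (cnt (GG F q) (strip T (2 * T)) : ℝ) =
        ∑ x, SS (fun q χ => (NN (F x q χ) T (2 * T) : ℝ)) q ∧
      ∑ x, SS (fun q χ => (Ns (F x q χ) T (2 * T) : ℝ)) q ≤
        (cnt (GG F q) (line T (2 * T)) : ℝ) := by
    intro q hq
    rw [Finset.mem_filter, Finset.mem_Ioc] at hq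
    exact (GG_zeros hP hN (by omega) hq.2 hT1).2
  have k1 : ∑ q ∈ (Finset.Ioc X Y).filter (fun q => Nat.Coprime q N),
      (1 / (q : ℝ) ^ 2) * (cnt (GG F q) (strip T (2 * T)) : ℝ) =
      ∑ j, ∑ q ∈ (Finset.Ioc X Y).filter (fun q => Nat.Coprime q N),
      (1 / (q : ℝ) ^ 2) * SS (fun q χ => (NN (F j q χ) T (2 * T) : ℝ)) q := by
    rw [Finset.sum_comm]
    exact Finset.sum_congr rfl fun q hq => by rw [(key q hq).1, Finset.mul_sum]
  have k2 : ∑ j, ∑ q ∈ (Finset.Ioc X Y).filter (fun q => Nat.Coprime q N),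
      (1 / (q : ℝ) ^ 2) * SS (fun q χ => (Ns (F j q χ) T (2 * T) : ℝ)) q ≤
      ∑ q ∈ (Finset.Ioc X Y).filter (fun q => Nat.Coprime q N),
      (1 / (q : ℝ) ^ 2) * (cnt (GG F q) (line T (2 * T)) : ℝ) := by
    rw [Finset.sum_comm]
    refine Finset.sum_le_sum fun q hq => ?_
    rw [← Finset.mul_sum]
    exact mul_le_mul_of_nonneg_left (key q hq).2 (by positivity)
  rw [k1]
  refine ⟨hT1, ?_, le_trans ?_ k2⟩
  · calc (Fintype.card ι : ℝ) * (T * Real.log X / 10) = ∑ _j : ι, (T * Real.log X / 10) := by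
          rw [Finset.sum_const, Finset.card_univ, nsmul_eq_mul]
      _ ≤ _ := Finset.sum_le_sum fun j _ => (hb j).1
  · rw [Finset.mul_sum]
    exact Finset.sum_le_sum fun j _ => (hb j).2

end

end Pool.Agent.H440.MC
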