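import Pool.Graph.R_seed8.W388.TC.FinalC
import Pool.Graph.R_seed8.W165.CE.AvgM

/-!
Twists of newforms with nebentypus by all primitive characters of conductor `q ≥ 1` prime to the level
(helper440; the proof of `newfC_twists1` is that of `W388.newfC_twists`, owner helper388, and that of
`packC` is that of `W165.CE.newf_packM`, owner helper165).
-/

set_option autoImplicit false
set_option maxHeartbeats 4000000

open Complex Filter Topology Set MeasureTheory UpperHalfPlane MatrixGroups CongruenceSubgroup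

namespace Pool.Agent.H440.MC

open W388 H385
open H370 (zset mult NN Nd Ns)

/-- everything about the twists of a newform -/
theorem newfC_twists1 (htw : StTwistC) (hme : StMellin) (hfe : StFE) (hdir : StDirG) (hnz : StNzrG)
    (hrs : StRSC) (hsel : StSel) {N : ℕ} [NeZero N] {k : ℤ} (hk : 1 ≤ k)
    {ψ : DirichletCharacter ℂ N}
    {f : CuspForm (Gamma1 N : Subgroup (GL (Fin 2) ℝ)) k} {η : ℂ} (hf : IsNewfC N k ψ f η) :
    ∃ (A : ℝ) (c : ℕ → ℂ) (F : (q : ℕ) → DirichletCharacter ℂ q → ℂ → ℂ), 1 ≤ A ∧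
      (∀ (q : ℕ) (χ : DirichletCharacter ℂ q), 1 ≤ q → Nat.Coprime q N → χ.IsPrimitive →
        GoodE 2 A q (F q χ) (fun n => χ (n : ZMod q) * c n *
          (ArithmeticFunction.vonMangoldt n : ℂ))) ∧ SelE c ∧
      (∀ s : ℂ, 1 < s.re → Summable (fun n : ℕ => ‖lamC f n * (n : ℂ) ^ (-s)‖)) ∧
      ∀ (q : ℕ) (χ : DirichletCharacter ℂ q), 1 ≤ q → Nat.Coprime q N → χ.IsPrimitive →
        Differentiable ℂ (F q χ) ∧ ∀ s : ℂ, 1 < s.re →
          HasProd (fun p : Nat.Primes =>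
            (1 - χ ((p : ℕ) : ZMod q) * lamC f p * ((p : ℕ) : ℂ) ^ (-s) +
              χ ((p : ℕ) : ZMod q) ^ 2 * ψ ((p : ℕ) : ZMod N) * ((p : ℕ) : ℂ) ^ (-2 * s))⁻¹)
              (F q χ s) := by
  have hN : 0 < N := Nat.pos_of_ne_zero (NeZero.ne N)
  have hN1 : (1 : ℝ) ≤ N := by exact_mod_cast hN
  obtain ⟨θ, lam, hθ, hθ1, hθ2, hH, hlam⟩ := reduce ψ (lamC f) (lamC_zero f) (lamC_one hf)
    (lamC_mul hf) (lamC_pow hf) (fun p hp hpN => lamC_conj hf p
      ((Nat.Prime.coprime_iff_not_dvd hp).mpr hpN))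
  have hR : RSLim lam := by
    have h1 := hrs N k hk ψ f hf.neb hf.one
    have h2 : ∀ n : ℕ, ‖lamC f n‖ ^ 2 = lam n ^ 2 := by
      intro n
      rw [hlam n]
      rcases eq_or_ne n 0 with rfl | hn
      · rw [hθ.zero, hH.zero]; simp
      · rw [norm_mul, hθ1 n hn, one_mul, Complex.norm_real, Real.norm_eq_abs, sq_abs]
    unfold RSLim at h1 ⊢
    simp only [h2] at h1
    exact h1
  obtain ⟨A1, hA1, d1, d2, d3⟩ := hdir N hN lam hH hR
  obtain ⟨A2, hA2, hA2'⟩ := hfe k hk N hN1 A1 hA1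
  have hterm : ∀ (q : ℕ) (χ : DirichletCharacter ℂ q) (n : ℕ),
      χ (n : ZMod q) * lamC f n = (χ (n : ZMod q) * θ n) * (lam n : ℂ) := by
    intro q χ n
    rw [hlam n]; ring
  have hsum : ∀ (q : ℕ) [NeZero q] (χ : DirichletCharacter ℂ q) (s : ℂ), 1 < s.re →
      Summable (fun n : ℕ => ‖χ (n : ZMod q) * lamC f n * (n : ℂ) ^ (-s)‖) := by
    intro q _ χ s hs
    have := (d3 _ (cmul_twist hθ χ) (fun s => ∑' n : ℕ, (χ (n : ZMod q) * θ n) * (lam n : ℂ) *
      (n : ℂ) ^ (-s)) (fun _ _ => rfl)).1 s hs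
    refine this.congr fun n => ?_
    rw [hterm]
  classical
  have hex : ∀ (q : ℕ) (χ : DirichletCharacter ℂ q), ∃ F : ℂ → ℂ,
      (1 ≤ q → Nat.Coprime q N → χ.IsPrimitive → FE2 k N q F ∧ ∀ s : ℂ, 1 < s.re →
      F s = ∑' n : ℕ, (χ (n : ZMod q) * θ n) * (lam n : ℂ) * (n : ℂ) ^ (-s)) := by
    intro q χ
    by_cases h : 1 ≤ q ∧ Nat.Coprime q N ∧ χ.IsPrimitive
    · obtain ⟨h1, h2, h3⟩ := h
      have : NeZero q := ⟨by omega⟩
      obtain ⟨F, hF, hFs⟩ := exists_twistC htw hme hk hf hsum q χ h3 h2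
      refine ⟨F, fun _ _ _ => ⟨hF, fun s hs => ?_⟩⟩
      rw [hFs s hs]
      exact tsum_congr fun n => by rw [hterm]
    · exact ⟨fun _ => 0, fun h1 h2 h3 => absurd ⟨h1, h2, h3⟩ h⟩
  choose F hF using hex
  have hcn : ∀ n : ℕ, n ≠ 0 → ‖θ n * (cS N lam n : ℂ)‖ = |cS N lam n| := by
    intro n hn
    rw [norm_mul, hθ1 n hn, one_mul, Complex.norm_real, Real.norm_eq_abs]
  refine ⟨max A1 A2, fun n => θ n * (cS N lam n : ℂ), F, le_max_of_le_left hA1, ?_, ?_, ?_, ?_⟩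
  · intro q χ hq hqN hχ
    have : NeZero q := ⟨by omega⟩
    have hq1 : (1 : ℝ) ≤ q := by exact_mod_cast (show 1 ≤ q by omega)
    obtain ⟨hfe2, hser⟩ := hF q χ (by omega) hqN hχ
    obtain ⟨e1, e2, e3, e4, e5, e6⟩ := d3 _ (cmul_twist hθ χ) (F q χ) hser
    have hz1 : ∀ s : ℂ, s.re = 1 → s.im ≠ 0 → F q χ s ≠ 0 := by
      have : NeZero (2 * (q * N)) := ⟨by
        have : 0 < q * N := Nat.mul_pos (by omega) hN
        omega⟩
      have hd1 : q ∣ 2 * (q * N) := ⟨2 * N, by ring⟩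
      have hd2 : N ∣ 2 * (q * N) := ⟨2 * q, by ring⟩
      refine hnz N hN lam hH hR (2 * (q * N)) (DirichletCharacter.changeLevel hd1 (χ ^ 2) *
        DirichletCharacter.changeLevel hd2 ψ) _ (cmul_twist hθ χ) ?_ (F q χ) hfe2.diff hser
      intro n hn
      have hn0 : n ≠ 0 := by
        rintro rfl
        rw [Nat.coprime_zero_left] at hn
        have : 0 < q * N := Nat.mul_pos (by omega) hN
        omega
      have hnN : Nat.Coprime n N := Nat.Coprime.coprime_dvd_right hd2 hn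
      have hu : IsUnit (n : ZMod (2 * (q * N))) := (ZMod.isUnit_iff_coprime _ _).mpr hn
      have hc1 : ((n : ZMod (2 * (q * N))).cast : ZMod q) = (n : ZMod q) := ZMod.cast_natCast hd1 n
      have hc2 : ((n : ZMod (2 * (q * N))).cast : ZMod N) = (n : ZMod N) := ZMod.cast_natCast hd2 n
      rw [mul_pow, hθ2 n hn0 hnN, MulChar.mul_apply]
      obtain ⟨v, hv⟩ := hu
      rw [← hv, DirichletCharacter.changeLevel_eq_cast_of_dvd _ hd1,
        DirichletCharacter.changeLevel_eq_cast_of_dvd _ hd2, hv, hc1, hc2,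
        MulChar.pow_apply' _ two_ne_zero]
    have hz2 : ∀ s : ℂ, 1 ≤ s.re → 1 ≤ |s.im| → F q χ s ≠ 0 := by
      intro s h1 h2
      rcases eq_or_lt_of_le h1 with h | h
      · refine hz1 s h.symm ?_
        intro h0
        rw [h0, abs_zero] at h2
        linarith
      · exact e2 s h
    obtain ⟨g1, g2, g3, g4⟩ := hA2' q hq1 (F q χ) hfe2 e4 hz2
    have hAmax : 0 < max A1 A2 := lt_max_of_lt_left (by linarith)
    have hbd : ∀ n : ℕ, ‖χ (n : ZMod q) * (θ n * (cS N lam n : ℂ)) *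
        (ArithmeticFunction.vonMangoldt n : ℂ)‖ * (n : ℝ) ^ (-(3 / 2) : ℝ) ≤
        ArithmeticFunction.vonMangoldt n * |cS N lam n| * (n : ℝ) ^ (-(3 / 2) : ℝ) := by
      intro n
      rcases eq_or_ne n 0 with rfl | hn
      · simp
      have h1 := χ.norm_le_one (n : ZMod q)
      have h2 : (0 : ℝ) ≤ ArithmeticFunction.vonMangoldt n := ArithmeticFunction.vonMangoldt_nonneg
      rw [norm_mul, norm_mul, hcn n hn, Complex.norm_real, Real.norm_of_nonneg h2]
      refine mul_le_mul_of_nonneg_right ?_ (by positivity)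
      calc ‖χ (n : ZMod q)‖ * |cS N lam n| * ArithmeticFunction.vonMangoldt n ≤
          1 * |cS N lam n| * ArithmeticFunction.vonMangoldt n := by gcongr
        _ = _ := by ring
    have hsm : Summable (fun n : ℕ => ‖χ (n : ZMod q) * (θ n * (cS N lam n : ℂ)) *
        (ArithmeticFunction.vonMangoldt n : ℂ)‖ * (n : ℝ) ^ (-(3 / 2) : ℝ)) :=
      Summable.of_nonneg_of_le (fun n => by positivity) hbd d1
    refine ⟨fun s _ => hfe2.diff.analyticAt s, ?_, ?_, ?_, g2, g3, ?_, hsm, ?_, ?_, ?_⟩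
    · intro s h1 h2 h3
      refine (g1 s h1 h2 h3).trans ?_
      have hb : 1 ≤ (q : ℝ) * s.im := by
        calc (1 : ℝ) = 1 * 1 := (mul_one 1).symm
          _ ≤ _ := mul_le_mul hq1 h3 zero_le_one (by linarith)
      exact mul_le_mul (le_max_right _ _)
        (Real.rpow_le_rpow_of_exponent_le hb (le_max_right _ _)) (by positivity) hAmax.le
    · intro t _
      refine le_trans ?_ (e5 (⟨2, t⟩ : ℂ) (le_refl _))
      exact inv_anti₀ (by linarith) (le_max_left _ _)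
    · intro s h1 h2
      exact hz2 s h1 (h2.trans (le_abs_self _))
    · intro n hn
      interval_cases n <;> simp
    · exact le_trans (Summable.tsum_le_tsum hbd hsm d1) (d2.trans (le_max_left _ _))
    · intro s h1 _
      rw [e3 s h1]
      congr 1
      refine tsum_congr fun n => ?_
      ring
    · intro s h1 h2 h3 h4
      exact (g4 s h1 h2 h3 h4).trans (le_max_right _ _)
  · have h1 := (hsel N hN lam hH hR).1
    unfold SelE at h1 ⊢
    refine h1.congr fun x => ?_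
    congr 1
    refine Finset.sum_congr rfl fun n hn => ?_
    have hn0 : n ≠ 0 := by
      have := (Finset.mem_Icc.mp hn).1
      omega
    simp only
    rw [hcn n hn0, Complex.norm_real, Real.norm_eq_abs]
  · intro s hs
    refine (hsum 1 1 s hs).congr fun n => ?_
    have h1 : (1 : DirichletCharacter ℂ 1) (n : ZMod 1) = 1 := by
      rw [Subsingleton.elim (n : ZMod 1) 1, map_one]
    rw [h1, one_mul]
  · intro q χ hq hqN hχ
    have : NeZero q := ⟨by omega⟩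
    obtain ⟨hfe2, hser⟩ := hF q χ hq hqN hχ
    refine ⟨hfe2.diff, fun s hs => ?_⟩
    have := (d3 _ (cmul_twist hθ χ) (F q χ) hser).2.2.2.2.2 s hs
    refine this.congr_fun fun p => ?_
    have hp := p.2
    congr 1
    rw [← hterm]
    congr 1
    by_cases hpN : (p : ℕ) ∣ N
    · have : ψ ((p : ℕ) : ZMod N) = 0 := by
        apply MulChar.map_nonunit
        rw [ZMod.isUnit_iff_coprime]
        intro hc
        exact ((Nat.Prime.coprime_iff_not_dvd hp).mp hc) hpN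
      rw [if_pos hpN, this]
      ring
    · rw [if_neg hpN, mul_pow, hθ2 p hp.ne_zero ((Nat.Prime.coprime_iff_not_dvd hp).mpr hpN)]



/-- the data of a family of twists that are needed: `t p`, `u p` are the coefficients of the Euler
polynomial `1 - t p X + u p X ^ 2`, `d` is the degree, `r` the order of the pole for the trivial
twist -/
structure Pack (d : ℝ) (r N : ℕ) (t u : ℕ → ℂ) (A : ℝ)
    (F : (q : ℕ) → DirichletCharacter ℂ q → ℂ → ℂ) : Prop where
  hd : 1 ≤ d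
  hA : 1 ≤ A
  an : ∀ (q : ℕ) (χ : DirichletCharacter ℂ q), 1 ≤ q → Nat.Coprime q N → χ.IsPrimitive →
    ∀ s : ℂ, s ≠ 1 → AnalyticAt ℂ (F q χ) s
  ent : ∀ (q : ℕ) (χ : DirichletCharacter ℂ q), 1 ≤ q → Nat.Coprime q N → χ.IsPrimitive →
    ∃ G : ℂ → ℂ, Differentiable ℂ G ∧ ∀ s : ℂ, s ≠ 1 →
      G s = (s - 1) ^ (if q = 1 then r else 0) * F q χ s
  euler : ∀ (q : ℕ) (χ : DirichletCharacter ℂ q), 1 ≤ q → Nat.Coprime q N → χ.IsPrimitive →
    ∀ s : ℂ, 1 < s.re → HasProd (fun p : Nat.Primes =>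
      (1 - χ ((p : ℕ) : ZMod q) * t p * ((p : ℕ) : ℂ) ^ (-s) +
        χ ((p : ℕ) : ZMod q) ^ 2 * (u p * (((p : ℕ) : ℂ) ^ (-s)) ^ 2))⁻¹) (F q χ s)
  good : ∀ (q : ℕ) (χ : DirichletCharacter ℂ q), 1 ≤ q → Nat.Coprime q N → χ.IsPrimitive →
    ∃ a : ℕ → ℂ, GoodE d A q (F q χ) a
  sum : ∀ s : ℂ, 1 < s.re → Summable fun p : Nat.Primes => ‖t p * ((p : ℕ) : ℂ) ^ (-s)‖
  le : ∀ p : ℕ, ‖u p‖ ≤ 1
  window : ∀ M : ℕ, M ≠ 0 → N ∣ M → ∃ δ K η X0 : ℝ, 0 < δ ∧ 1 ≤ K ∧ 0 < η ∧ 1 ≤ X0 ∧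
    ∀ (X Y : ℕ) (T : ℝ), X0 ≤ X → K * X ≤ Y → (Y : ℝ) ≤ (X : ℝ) ^ (1 + η) →
      (Real.log X) ^ 2 ≤ T → T ≤ (X : ℝ) ^ η →
      (0.6725 + δ) * primFamM M X Y (fun q χ => (NN (F q χ) T (2 * T) : ℝ)) ≤
        primFamM M X Y (fun q χ => (Ns (F q χ) T (2 * T) : ℝ))

/-- the twists of a newform with nebentypus -/
theorem packC {N : ℕ} [NeZero N] {k : ℤ} (hk : 1 ≤ k) {ψ : DirichletCharacter ℂ N}
    {f : CuspForm (Gamma1 N : Subgroup (GL (Fin 2) ℝ)) k} {η : ℂ} (hf : IsNewfC N k ψ f η) :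
    ∃ (A : ℝ) (F : (q : ℕ) → DirichletCharacter ℂ q → ℂ → ℂ),
      Pack 2 0 N (lamC f) (fun p => ψ (p : ZMod N)) A F := by
  obtain ⟨A, c, F, hA, h1, h2, h4, h3⟩ := newfC_twists1 Pool.Agent.W440.TC.t_twistC
    Pool.Agent.W108.TW.t_mellin Pool.Agent.W820.TW.t_fe p_dirG p_nzrG p_rsC p_sel hk hf
  refine ⟨A, F, ⟨by norm_num, hA, ?_, ?_, ?_, ?_, ?_, ?_, ?_⟩⟩
  · intro q χ hq hqN hχ s _
    exact (h3 q χ hq hqN hχ).1.analyticAt s
  · intro q χ hq hqN hχ
    exact ⟨F q χ, (h3 q χ hq hqN hχ).1, fun s _ => by rw [ite_self, pow_zero, one_mul]⟩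
  · intro q χ hq hqN hχ s hs
    refine (congrArg (fun g => HasProd g (F q χ s)) (funext fun p => ?_)).mpr
      ((h3 q χ hq hqN hχ).2 s hs)
    congr 2
    rw [show (-2 * s : ℂ) = -s * (2 : ℕ) by push_cast; ring, Complex.cpow_mul_nat, mul_assoc]
  · intro q χ hq hqN hχ
    exact ⟨_, h1 q χ hq hqN hχ⟩
  · intro s hs
    exact (h4 s hs).comp_injective (i := fun p : Nat.Primes => (p : ℕ)) (fun a b h => Subtype.ext h)
  · intro p
    exact ψ.norm_le_one _
  · intro M hM0 hNM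
    have h1' : TwE 2 A (rad M) c F := by
      intro q χ hq hqN hχ
      exact h1 q χ (by omega) (Nat.Coprime.coprime_dvd_right hNM ((coprime_rad hM0 q).mp hqN)) hχ
    have hc : (2 : ℝ) / 2 * Rw 1.414 0 + 4 / 2 * (∫ α in (0 : ℝ)..1, α * Rw 1.414 α) < 1.3275 := by
      have := Rw_const_d2
      norm_num at this ⊢
      exact this
    obtain ⟨κ, hκ1, hκ2⟩ := exists_between hc
    obtain ⟨K, η, X0, hK, hη, hX0, h⟩ := final_of_const_E 2 A (by norm_num) hA (rad M)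
      (rad_squarefree M) _ F h1' h2 1.414 κ (by norm_num) (by linarith [Real.pi_gt_three]) hκ1
    refine ⟨1.3275 - κ, K, η, X0, by linarith, hK, hη, hX0, fun X Y T a1 a2 a3 a4 a5 => ?_⟩
    have := (h X Y T a1 a2 a3 a4 a5).1
    simp only [primFamM_rad hM0] at this
    have e : (0.6725 + (1.3275 - κ) : ℝ) = 2 - κ := by norm_num; ring
    rw [e]
    exact this

end Pool.Agent.H440.MC
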