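import Pool.Agent.H440.MC.PackC
import Pool.Graph.R_seed8.H385R2.DirU
import Pool.Graph.R_seed8.H385R2.EcD1
import Pool.Graph.R_seed8.W398.LV.A

/-!
The twists of a primitive Dirichlet character `ρ` by all primitive characters of conductor prime to that
of `ρ` (helper440).
-/

set_option autoImplicit false
set_option maxHeartbeats 4000000

open Complex Filter Topology Set MeasureTheory

namespace Pool.Agent.H440.MC

open W388 H385
open H370 (zset mult NN Nd Ns)

lemma Rw_const_d1 : (1 : ℝ) / 2 * Rw 1.414 0 + 4 / 1 * ∫ α in (0 : ℝ)..1, α * Rw 1.414 α < 1.3275 := by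
  have h := Rw_const_closed 1.414 (1 / 2) (4 / 1) (by norm_num)
  rw [h]
  have hh : (1.414 : ℝ) / 2 = 707 / 1000 := by norm_num
  have hS : Real.sin 1.414 = 2 * Real.sin (707 / 1000) * Real.cos (707 / 1000) := by
    rw [← Real.sin_two_mul]; congr 1; norm_num
  have hC : Real.cos 1.414 = 1 - 2 * Real.sin (707 / 1000) ^ 2 := by
    have : Real.cos 1.414 = Real.cos (2 * (707 / 1000)) := by congr 1; norm_num
    rw [this, Real.cos_two_mul, Real.cos_sq']
    ring
  obtain ⟨hcos, hsin⟩ := trig_707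
  rw [hh, hS, hC]
  set s := Real.sin (707 / 1000) with hs
  set c := Real.cos (707 / 1000) with hcc
  rw [abs_le] at hcos hsin
  have hs1 : 0.649555754 ≤ s := by linarith [hsin.1]
  have hspos : 0 < s := by linarith
  have hc1 : c ≤ 0.760313963 := by linarith [hcos.2]
  have hs2 : s ≤ 0.649555757 := by linarith [hsin.2]
  have hc0 : 0 ≤ c := by linarith [hcos.1]
  have hsc : s * c ≤ 0.649555757 * 0.760313963 := mul_le_mul hs2 hc1 hc0 (by norm_num)
  have hss : 0.649555754 ^ 2 ≤ s ^ 2 := pow_le_pow_left₀ (by norm_num) hs1 2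
  have e : (1.414 / (2 * s)) ^ 2 / 2 *
        (1 / 2 * (1 + 2 * s * c / 1.414) + 4 / 1 * ((1 - (1 - 2 * s ^ 2) - 1) / 1.414 ^ 2 +
          2 * s * c / 1.414 ^ 3)) =
      (1.414 ^ 2 / 2 + (1.414 + 8 / 1.414) * (s * c) + 8 * s ^ 2 - 4) / (8 * s ^ 2) := by
    field_simp
    ring
  rw [e, div_lt_iff₀ (by positivity)]
  have : (1.414 + 8 / 1.414) * (s * c) ≤
    (1.414 + 8 / 1.414) * (0.649555757 * 0.760313963 : ℝ) :=
    mul_le_mul_of_nonneg_left hsc (by norm_num)
  norm_num at this hss ⊢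
  linarith

/-- prime powers which are not prime to `D` -/
lemma sum_noncop (D : ℕ) (hD : D ≠ 0) : ∃ C : ℝ, 0 ≤ C ∧ ∀ N : ℕ,
    ∑ n ∈ (Finset.Icc 1 N).filter (fun n => ¬ Nat.Coprime n D),
      ArithmeticFunction.vonMangoldt n / (n : ℝ) ≤ C := by
  classical
  refine ⟨∑ p ∈ D.primeFactors, Real.log p, Finset.sum_nonneg fun p hp => Real.log_nonneg ?_,
    fun N => ?_⟩
  · exact_mod_cast (Nat.prime_of_mem_primeFactors hp).one_lt.le
  have h0 : ∀ n : ℕ, 0 ≤ ArithmeticFunction.vonMangoldt n / (n : ℝ) := fun n =>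
    div_nonneg ArithmeticFunction.vonMangoldt_nonneg (Nat.cast_nonneg _)
  have h1 : ∑ n ∈ (Finset.Icc 1 N).filter (fun n => ¬ Nat.Coprime n D),
      ArithmeticFunction.vonMangoldt n / (n : ℝ) ≤
      ∑ n ∈ (D.primeFactors ×ˢ Finset.Icc 1 N).image (fun x : ℕ × ℕ => x.1 ^ x.2),
        ArithmeticFunction.vonMangoldt n / (n : ℝ) := by
    rw [← Finset.sum_filter_ne_zero]
    refine Finset.sum_le_sum_of_subset_of_nonneg ?_ fun _ _ _ => h0 _
    intro n hn
    rw [Finset.mem_filter, Finset.mem_filter, Finset.mem_Icc] at hn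
    obtain ⟨⟨⟨hn1, hn2⟩, hn3⟩, hn4⟩ := hn
    have h5 : ArithmeticFunction.vonMangoldt n ≠ 0 := fun h => hn4 (by rw [h, zero_div])
    rw [ArithmeticFunction.vonMangoldt_ne_zero_iff] at h5
    obtain ⟨p, k, hp, hk, rfl⟩ := h5
    have hp' := hp.nat_prime
    rw [Finset.mem_image]
    refine ⟨(p, k), ?_, rfl⟩
    rw [Finset.mem_product, Finset.mem_Icc]
    refine ⟨?_, hk, ?_⟩
    · rw [Nat.mem_primeFactors]
      refine ⟨hp', ?_, hD⟩
      by_contra hc
      exact hn3 (((Nat.Prime.coprime_iff_not_dvd hp').mpr hc).pow_left k)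
    · exact (Nat.lt_pow_self hp'.one_lt).le.trans hn2
  refine h1.trans ((Finset.sum_image_le_of_nonneg (fun x _ => h0 _)).trans ?_)
  rw [Finset.sum_product]
  refine Finset.sum_le_sum fun p hp => ?_
  have hp' := Nat.prime_of_mem_primeFactors hp
  have hlog : 0 ≤ Real.log p := Real.log_nonneg (by exact_mod_cast hp'.one_lt.le)
  have h2 : ∀ k ∈ Finset.Icc 1 N, ArithmeticFunction.vonMangoldt (p ^ k) / ((p ^ k : ℕ) : ℝ) ≤
      Real.log p * (1 / 2) ^ k := by
    intro k hk
    rw [Finset.mem_Icc] at hk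
    rw [ArithmeticFunction.vonMangoldt_apply_pow (by omega),
      ArithmeticFunction.vonMangoldt_apply_prime hp', div_eq_mul_inv]
    refine mul_le_mul_of_nonneg_left ?_ hlog
    push_cast
    rw [one_div, inv_pow]
    refine inv_anti₀ (by positivity) (pow_le_pow_left₀ (by norm_num) ?_ k)
    exact_mod_cast hp'.two_le
  refine (Finset.sum_le_sum h2).trans ?_
  rw [← Finset.mul_sum]
  refine mul_le_of_le_one_right hlog ?_
  have h3 : ∀ m : ℕ, ∑ k ∈ Finset.Icc 1 m, ((1 : ℝ) / 2) ^ k = 1 - (1 / 2) ^ m := by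
    intro m
    induction m with
    | zero => simp
    | succ n ih =>
      rw [Finset.sum_Icc_succ_top (by omega), ih]
      ring
  rw [h3]
  have : (0 : ℝ) ≤ (1 / 2) ^ N := by positivity
  linarith

/-- the mean square of the coefficients -/
lemma selE_char {D : ℕ} [NeZero D] (ρ : DirichletCharacter ℂ D) :
    SelE (fun n => ρ (n : ZMod D)) := by
  obtain ⟨C, hC, h⟩ := sum_noncop D (NeZero.ne D)
  have h1 := Pool.Agent.W398.LV.selE_one
  unfold SelE at h1 ⊢
  have h2 : Tendsto (fun x : ℝ => C / Real.log x) atTop (𝓝 0) :=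
    Tendsto.const_div_atTop Real.tendsto_log_atTop C
  have h3 : Tendsto (fun x : ℝ => (∑ n ∈ Finset.Icc 1 ⌊x⌋₊,
      ArithmeticFunction.vonMangoldt n * ‖(1 : ℂ)‖ ^ 2 / n) / Real.log x - C / Real.log x)
      atTop (𝓝 1) := by
    simpa using h1.sub h2
  have hn : ∀ n : ℕ, Nat.Coprime n D → ‖ρ (n : ZMod D)‖ = 1 := by
    intro n hn
    obtain ⟨v, hv⟩ := (ZMod.isUnit_iff_coprime n D).mpr hn
    rw [← hv]
    exact ρ.unit_norm_eq_one v
  have hz : ∀ n : ℕ, ¬ Nat.Coprime n D → ρ (n : ZMod D) = 0 := by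
    intro n hn
    exact MulChar.map_nonunit _ (fun h => hn ((ZMod.isUnit_iff_coprime n D).mp h))
  have key : ∀ x : ℝ, ∑ n ∈ Finset.Icc 1 ⌊x⌋₊,
      ArithmeticFunction.vonMangoldt n * ‖ρ (n : ZMod D)‖ ^ 2 / n =
      ∑ n ∈ Finset.Icc 1 ⌊x⌋₊, ArithmeticFunction.vonMangoldt n * ‖(1 : ℂ)‖ ^ 2 / n -
      ∑ n ∈ (Finset.Icc 1 ⌊x⌋₊).filter (fun n => ¬ Nat.Coprime n D),
        ArithmeticFunction.vonMangoldt n / (n : ℝ) := by
    intro x
    rw [Finset.sum_filter, ← Finset.sum_sub_distrib]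
    refine Finset.sum_congr rfl fun n _ => ?_
    by_cases hc : Nat.Coprime n D
    · rw [hn n hc, if_neg (not_not.mpr hc)]
      simp
    · rw [hz n hc, if_pos hc]
      simp
  refine tendsto_of_tendsto_of_tendsto_of_le_of_le' h3 h1 ?_ ?_
  · filter_upwards [eventually_gt_atTop 1] with x hx
    have hl : 0 < Real.log x := Real.log_pos hx
    rw [key, sub_div]
    refine sub_le_sub_left ?_ _
    exact div_le_div_of_nonneg_right (h _) hl.le
  · filter_upwards [eventually_gt_atTop 1] with x hx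
    have hl : 0 < Real.log x := Real.log_pos hx
    refine div_le_div_of_nonneg_right ?_ hl.le
    rw [key]
    have : 0 ≤ ∑ n ∈ (Finset.Icc 1 ⌊x⌋₊).filter (fun n => ¬ Nat.Coprime n D),
        ArithmeticFunction.vonMangoldt n / (n : ℝ) := Finset.sum_nonneg fun n _ =>
      div_nonneg ArithmeticFunction.vonMangoldt_nonneg (Nat.cast_nonneg _)
    linarith

/-- a Dirichlet L-function without its pole -/
lemma entire_part {n : ℕ} [NeZero n] {χ : DirichletCharacter ℂ n} (hχ : χ.IsPrimitive) :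
    ∃ G : ℂ → ℂ, Differentiable ℂ G ∧ ∀ s : ℂ, s ≠ 1 →
      G s = (s - 1) ^ (if n = 1 then 1 else 0) * DirichletCharacter.LFunction χ s := by
  by_cases hn : n = 1
  · subst hn
    refine ⟨DirichletCharacter.LFunctionTrivChar₁ 1,
      DirichletCharacter.differentiable_LFunctionTrivChar₁ 1, fun s hs => ?_⟩
    rw [if_pos rfl, pow_one]
    unfold DirichletCharacter.LFunctionTrivChar₁
    rw [Function.update_of_ne hs, Subsingleton.elim χ 1]
  · refine ⟨DirichletCharacter.LFunction χ, DirichletCharacter.differentiable_LFunction ?_,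
      fun s _ => by rw [if_neg hn, pow_zero, one_mul]⟩
    rintro rfl
    rw [DirichletCharacter.isPrimitive_def, DirichletCharacter.conductor_one] at hχ
    exact hn hχ.symm

lemma summable_lam : Summable fun n : ℕ =>
    ArithmeticFunction.vonMangoldt n * (n : ℝ) ^ (-(3 / 2) : ℝ) := by
  have h := (ArithmeticFunction.LSeriesSummable_vonMangoldt (s := (3 / 2 : ℂ)) (by norm_num)).norm
  refine h.congr fun n => ?_
  rcases eq_or_ne n 0 with rfl | hn
  · simp
  · rw [LSeries.term_of_ne_zero hn, norm_div, norm_natCast_cpow_of_pos (Nat.pos_of_ne_zero hn),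
      Complex.norm_real, Real.norm_of_nonneg ArithmeticFunction.vonMangoldt_nonneg,
      Real.rpow_neg (Nat.cast_nonneg _), div_eq_mul_inv]
    norm_num

/-- change of the conductor by a constant factor -/
lemma goodE_of_goodU {A : ℝ} (hA : 1 ≤ A) {D q : ℕ} (hD : 1 ≤ D) (hq : 1 ≤ q) {F : ℂ → ℂ}
    {a : ℕ → ℂ} (h : GoodU A ((D * q : ℕ) : ℝ) F a) :
    GoodE 1 (A * (D : ℝ) ^ A + A + Real.log D + ∑' n : ℕ,
      ArithmeticFunction.vonMangoldt n * (n : ℝ) ^ (-(3 / 2) : ℝ)) q F a := by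
  set B := ∑' n : ℕ, ArithmeticFunction.vonMangoldt n * (n : ℝ) ^ (-(3 / 2) : ℝ) with hB
  have hB0 : 0 ≤ B := tsum_nonneg fun n =>
    mul_nonneg ArithmeticFunction.vonMangoldt_nonneg (Real.rpow_nonneg (Nat.cast_nonneg _) _)
  have hD1 : (1 : ℝ) ≤ D := by exact_mod_cast hD
  have hq1 : (1 : ℝ) ≤ q := by exact_mod_cast hq
  have hlog : 0 ≤ Real.log D := Real.log_nonneg hD1
  have hDA : 1 ≤ (D : ℝ) ^ A := Real.one_le_rpow hD1 (by linarith)
  have hADA : 0 ≤ A * (D : ℝ) ^ A := by positivity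
  set A' := A * (D : ℝ) ^ A + A + Real.log D + B with hA'
  have hAA : A ≤ A' := by rw [hA']; linarith
  have hbd : ∀ n : ℕ, ‖a n‖ * (n : ℝ) ^ (-(3 / 2) : ℝ) ≤
      ArithmeticFunction.vonMangoldt n * (n : ℝ) ^ (-(3 / 2) : ℝ) := fun n =>
    mul_le_mul_of_nonneg_right (h.ha n) (Real.rpow_nonneg (Nat.cast_nonneg _) _)
  have hsm : Summable fun n : ℕ => ‖a n‖ * (n : ℝ) ^ (-(3 / 2) : ℝ) :=
    Summable.of_nonneg_of_le (fun n => by positivity) hbd summable_lam
  refine ⟨h.an, ?_, ?_, h.nzr, h.nzl, h.symm, ?_, hsm, ?_, h.ld, ?_⟩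
  · intro s h1 h2 h3
    refine (h.growth s h1 h2 h3).trans ?_
    have hb : 1 ≤ (q : ℝ) * s.im := one_le_mul_of_one_le_of_one_le hq1 h3
    have e1 : (((D * q : ℕ) : ℝ) * s.im) ^ A = (D : ℝ) ^ A * ((q : ℝ) * s.im) ^ A := by
      rw [← Real.mul_rpow (by positivity) (by linarith)]
      congr 1
      push_cast
      ring
    rw [e1, ← mul_assoc]
    refine mul_le_mul ?_ (Real.rpow_le_rpow_of_exponent_le hb hAA) (by positivity) (by linarith)
    rw [hA']
    linarith
  · intro t ht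
    exact (inv_anti₀ (by linarith) hAA).trans (h.lower t ht)
  · intro n hn
    have h1 := h.ha n
    have h2 : ArithmeticFunction.vonMangoldt n = 0 := by
      interval_cases n <;> simp
    rw [h2] at h1
    exact norm_le_zero_iff.mp h1
  · refine (Summable.tsum_le_tsum hbd hsm summable_lam).trans ?_
    rw [hA']
    linarith
  · intro s h1 h2 h3 h4
    have h5 := h.left s h1 h2 h3 h4
    have hb : 0 < (q : ℝ) * s.im := by positivity
    have e1 : Real.log (((D * q : ℕ) : ℝ) * s.im) = Real.log D + Real.log ((q : ℝ) * s.im) := by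
      rw [← Real.log_mul (by linarith) hb.ne']
      congr 1
      push_cast
      ring
    rw [e1] at h5
    set w := (starRingEnd ℂ) (deriv F (1 - (starRingEnd ℂ) s) / F (1 - (starRingEnd ℂ) s)) with hw
    have e2 : deriv F s / F s + ((1 * Real.log (q * s.im) : ℝ) : ℂ) + w =
        (deriv F s / F s + ((Real.log D + Real.log ((q : ℝ) * s.im) : ℝ) : ℂ) + w) -
          (Real.log D : ℂ) := by
      push_cast
      ring
    rw [e2]
    refine (norm_sub_le _ _).trans ?_
    rw [Complex.norm_real, Real.norm_of_nonneg hlog]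
    rw [hA']
    linarith

/-- the twists of a primitive Dirichlet character -/
theorem packD {D : ℕ} [NeZero D] {ρ : DirichletCharacter ℂ D} (hρ : ρ.IsPrimitive) :
    ∃ (A : ℝ) (F : (q : ℕ) → DirichletCharacter ℂ q → ℂ → ℂ),
      Pack 1 (if D = 1 then 1 else 0) D (fun p => ρ (p : ZMod D)) (fun _ => 0) A F := by
  obtain ⟨A, hA, hG⟩ := good_dirichlet_U
  have hD : 1 ≤ D := Nat.one_le_iff_ne_zero.2 (NeZero.ne D)
  have hLF : ∀ (q : ℕ) [NeZero q] (χ : DirichletCharacter ℂ q),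
      LF q χ = DirichletCharacter.LFunction χ := by
    intro q _ χ
    unfold LF
    rw [dif_neg (NeZero.ne q)]
  set A' := A * (D : ℝ) ^ A + A + Real.log D + ∑' n : ℕ,
      ArithmeticFunction.vonMangoldt n * (n : ℝ) ^ (-(3 / 2) : ℝ) with hA'
  have hD1 : (1 : ℝ) ≤ D := by exact_mod_cast hD
  have hlog : 0 ≤ Real.log D := Real.log_nonneg hD1
  have hB0 : 0 ≤ ∑' n : ℕ, ArithmeticFunction.vonMangoldt n * (n : ℝ) ^ (-(3 / 2) : ℝ) :=
    tsum_nonneg fun n =>
      mul_nonneg ArithmeticFunction.vonMangoldt_nonneg (Real.rpow_nonneg (Nat.cast_nonneg _) _)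
  have hADA : 0 ≤ A * (D : ℝ) ^ A := by positivity
  have hA1' : 1 ≤ A' := by rw [hA']; linarith
  have hcoef : ∀ (q : ℕ) (χ : DirichletCharacter ℂ q) (n : ℕ),
      pm ρ χ (n : ZMod (D * q)) = χ (n : ZMod q) * ρ (n : ZMod D) := by
    intro q χ n
    rw [pm_apply, mul_comm]
  have hgood : ∀ (q : ℕ) (χ : DirichletCharacter ℂ q), 1 ≤ q → Nat.Coprime q D → χ.IsPrimitive →
      GoodE 1 A' q (LF (D * q) (pm ρ χ)) (fun n => χ (n : ZMod q) * ρ (n : ZMod D) *
        (ArithmeticFunction.vonMangoldt n : ℂ)) := by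
    intro q χ hq hqD hχ
    have : NeZero q := ⟨by omega⟩
    have : NeZero (D * q) := ⟨Nat.mul_ne_zero (NeZero.ne D) (NeZero.ne q)⟩
    have h1 := goodE_of_goodU hA hD hq (hG (D * q) (pm ρ χ) (pm_primitive hqD.symm hρ hχ))
    rw [hLF]
    simp only [hcoef] at h1
    exact h1
  refine ⟨A', fun q χ => LF (D * q) (pm ρ χ), ⟨le_rfl, hA1', ?_, ?_, ?_, ?_, ?_, ?_, ?_⟩⟩
  · intro q χ hq hqD hχ s hs
    have : NeZero q := ⟨by omega⟩
    have : NeZero (D * q) := ⟨Nat.mul_ne_zero (NeZero.ne D) (NeZero.ne q)⟩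
    simp only [hLF]
    have h1 : DifferentiableOn ℂ (DirichletCharacter.LFunction (pm ρ χ)) {z | z ≠ 1} := fun z hz =>
      (DirichletCharacter.differentiableAt_LFunction _ z (Or.inl hz)).differentiableWithinAt
    exact h1.analyticAt (isOpen_ne.mem_nhds hs)
  · intro q χ hq hqD hχ
    have : NeZero q := ⟨by omega⟩
    have : NeZero (D * q) := ⟨Nat.mul_ne_zero (NeZero.ne D) (NeZero.ne q)⟩
    obtain ⟨G, hG, h⟩ := entire_part (pm_primitive hqD.symm hρ hχ)
    refine ⟨G, hG, fun s hs => ?_⟩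
    simp only [hLF]
    rw [h s hs]
    congr 2
    by_cases hq1 : q = 1
    · subst hq1
      simp
    · rw [if_neg hq1, if_neg]
      intro h
      exact hq1 (Nat.eq_one_of_mul_eq_one_left h)
  · intro q χ hq hqD hχ s hs
    have : NeZero q := ⟨by omega⟩
    have : NeZero (D * q) := ⟨Nat.mul_ne_zero (NeZero.ne D) (NeZero.ne q)⟩
    simp only [hLF]
    rw [DirichletCharacter.LFunction_eq_LSeries _ hs]
    refine (congrArg (fun g => HasProd g (LSeries (fun n => pm ρ χ n) s))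
      (funext fun p => ?_)).mpr (DirichletCharacter.LSeries_eulerProduct_hasProd (pm ρ χ) hs)
    rw [hcoef]
    ring
  · intro q χ hq hqD hχ
    exact ⟨_, hgood q χ hq hqD hχ⟩
  · intro s hs
    have h1 := (Nat.Primes.summable_rpow (r := -s.re)).2 (by linarith)
    refine Summable.of_nonneg_of_le (fun p => norm_nonneg _) (fun p => ?_) h1
    rw [norm_mul, Complex.norm_natCast_cpow_of_pos p.2.pos, Complex.neg_re]
    exact mul_le_of_le_one_left (by positivity) (ρ.norm_le_one _)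
  · intro p
    simp
  · intro M hM0 hDM
    have h1' : TwE 1 A' (rad M) (fun n => ρ (n : ZMod D)) (fun q χ => LF (D * q) (pm ρ χ)) := by
      intro q χ hq hqM hχ
      exact hgood q χ (by omega) (Nat.Coprime.coprime_dvd_right hDM ((coprime_rad hM0 q).mp hqM)) hχ
    obtain ⟨κ, hκ1, hκ2⟩ := exists_between Rw_const_d1
    obtain ⟨K, η, X0, hK, hη, hX0, h⟩ := final_of_const_E 1 A' le_rfl hA1' (rad M)
      (rad_squarefree M) _ _ h1' (selE_char ρ) 1.414 κ (by norm_num)
      (by linarith [Real.pi_gt_three]) hκ1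
    refine ⟨1.3275 - κ, K, η, X0, by linarith, hK, hη, hX0, fun X Y T a1 a2 a3 a4 a5 => ?_⟩
    have := (h X Y T a1 a2 a3 a4 a5).1
    simp only [primFamM_rad hM0] at this
    have e : (0.6725 + (1.3275 - κ) : ℝ) = 2 - κ := by norm_num; ring
    rw [e]
    exact this

end Pool.Agent.H440.MC
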